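import Pool.Graph.R_pool_sql_team_ae5b0c61.Results.MP_7b562e_lc.No

namespace Pool.Agent.Results.MP_7b562e_lc.LinearGap

open Pool.Agent.H66.Rt Pool.Agent.H37 Filter
open Pool.Agent.Results.MP_7b562e_lc.No (words hard lim)

/-- The analogue of `RT^1_2(A)` for a colouring with `r` colours: all infinite sets on which the
colouring is constant. -/
def RTr {r : ℕ} (f : ℕ → Fin r) : Set (Set ℕ) := {X | X.Infinite ∧ ∃ i, ∀ x ∈ X, f x = i}

theorem alpha {V : List Bool × ℕ →. List Bool} (hV : Partrec V) (r : ℕ) (hr : 1 ≤ r) :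
    ∃ α : ℕ → Bool, CI (orc Kf) α ∧ ∀ k, ∃ h m, k * (m + k + 1) ≤ h ∧
      ∀ q : List Bool, pre α (r * h) ∈ V (q, k) → r * h ≤ q.length + m := by
  obtain ⟨F, hF, -, eF⟩ := partrec_stage hV
  have hW : ∀ k l : ℕ, l ≤ r * ((k + 1) * (l + k + 1)) := fun k l => by
    nlinarith [Nat.zero_le (k * (l + k + 1)), Nat.zero_le ((k + 1) * (l + k + 1))]
  obtain ⟨b, b1, b2⟩ := ci_K (p := fun x : (ℕ × List Bool) × List Bool => ∃ q : List Bool,
    q.length < r * ((x.1.1 + 1) * (x.1.2.length + x.1.1 + 1)) - x.1.2.length ∧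
      x.1.2 ++ x.2 ∈ V (q, x.1.1))
    (re_of_exists (fun x (y : List Bool × ℕ) => decide (y.1.length <
        r * ((x.1.1 + 1) * (x.1.2.length + x.1.1 + 1)) - x.1.2.length) &&
      decide (F (y.1, x.1.1) y.2 = some (x.1.2 ++ x.2))) (CI.and (by fun_prop) (CI.eq (hF.comp
      (g := fun q : ((ℕ × List Bool) × List Bool) × List Bool × ℕ => ((q.2.1, q.1.1.1), q.2.2))
      (by fun_prop)) (by fun_prop))) fun x => by simp [eF])
  obtain ⟨f, f1, f2⟩ := CI.exists_choice (O := orc Kf) (p := fun (x : ℕ × List Bool) (s : List Bool) =>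
    decide (s.length = r * ((x.1 + 1) * (x.2.length + x.1 + 1)) - x.2.length) && !b (x, s))
    (by fun_prop) fun x =>
    (hard (fun q => V (q, x.1)) x.2 (r * ((x.1 + 1) * (x.2.length + x.1 + 1)) - x.2.length)).imp
      fun s h => by simpa [h.1] using fun k => h.2 ((b2 (x, s)).2 k)
  simp only [Bool.and_eq_true, decide_eq_true_eq, Bool.not_eq_true', ← Bool.not_eq_true, ← b2] at f2
  let t : ℕ → List Bool := fun n => n.rec [] fun k τ => τ ++ f (k, τ)
  have t0 : CI (orc Kf) t := CI.of_rec1 (h := fun k τ => τ ++ f (k, τ)) (by fun_prop) fun _ => rfl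
  have t1 : ∀ k, (t (k + 1)).length = r * ((k + 1) * ((t k).length + k + 1)) := fun k => by
    have h1 := (f2 (k, t k)).1
    have h2 := hW k (t k).length
    simp only [t, List.length_append] at h1 h2 ⊢
    omega
  have t2 : ∀ {k l}, k ≤ l → t k <+: t l := fun h => by
    induction h with
    | refl => rfl
    | step _ ih => exact ih.trans (List.prefix_append _ _)
  have t4 : ∀ i, i < (t (i + 1)).length := fun i => by
    rw [t1]; nlinarith [Nat.zero_le ((i + 1) * ((t i).length + i + 1)),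
      Nat.zero_le (i * ((t i).length + i + 1))]
  have t3 : ∀ k, pre (fun i => (t (i + 1)).getD i false) (t k).length = t k := fun k => by
    refine (pre_congr fun i hi => ?_).trans (pre_getD _ false)
    have := t4 i
    obtain ⟨u, hu⟩ := t2 (le_max_left k (i + 1))
    obtain ⟨v, hv⟩ := t2 (le_max_right k (i + 1))
    rw [← List.getD_append _ v _ _ (by omega), hv, ← hu, List.getD_append _ _ _ _ hi]
  refine ⟨fun i => (t (i + 1)).getD i false, by fun_prop, fun k =>
    ⟨(k + 1) * ((t k).length + k + 1), (t k).length, Nat.mul_le_mul_right _ (by omega),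
      fun q hq => ?_⟩⟩
  rw [← t1 k] at hq ⊢
  replace hq : t (k + 1) ∈ V (q, k) := (congrArg (· ∈ V (q, k)) (t3 (k + 1))).mp hq
  have h2 := hW k (t k).length
  rw [t1]
  by_contra h
  refine (f2 (k, t k)).2 ⟨q, ?_, hq⟩
  simp only
  omega

theorem main (Φ : List Bool → List Bool → Option (List Bool)) (V : List Bool × ℕ →. List Bool)
    (hΦ : UnivO Φ) (hV : UnivC V) (r : ℕ) (hr : 1 ≤ r) :
    ∃ f : ℕ → Fin r, ∃ c1 : ℕ, ∀ N k : ℕ, N ≤ k → ∃ s : List Bool, ∃ h m : ℕ, s.length = r * h ∧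
      k * (m + k + 1) ≤ h ∧ (⨆ X ∈ RTr f, CO Φ X s) ≤ ((h + c1 : ℕ) : ℕ∞) ∧
      ((r * h - m : ℕ) : ℕ∞) ≤ ⨆ n ≥ N, CC V s n := by
  obtain ⟨α, h1, h2⟩ := alpha hV.1 r hr
  obtain ⟨a, a1, a2⟩ := lim h1
  obtain ⟨G, hG, eG⟩ : ∃ G : ℕ × ℕ → Bool, CI ∅ G ∧ ∀ s i, a s i = G (s, i) := ⟨_, a1, fun _ _ => rfl⟩
  let P : ℕ → List Bool → List Bool → ℕ → Bool := fun b σ p x => σ.getD x false &&
    (List.range p.length).all fun j => G (x, r * j + b) == p.getD j false
  have hcc : ∀ b : Fin r, ∃ c : ℕ, ∀ X p s, Run (fun σ p => ((List.range σ.length).find?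
      (P b σ p)).map fun x => (List.range (r * p.length)).map fun i => G (x, i)) X p s →
      ∃ q, q.length ≤ p.length + c ∧ Run Φ X q s := by
    intro b
    refine hΦ.2 (fun σ p => ((List.range σ.length).find? (P b σ p)).map fun x =>
      (List.range (r * p.length)).map fun i => G (x, i)) ⟨CI.computable (by fun_prop), ?_⟩
    rintro σ _ p v ⟨τ, rfl⟩ h
    simp only [Option.map_eq_some_iff, List.find?_range_eq_some, List.mem_range] at h ⊢
    obtain ⟨x, ⟨x1, x2, x3⟩, x4⟩ := h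
    have : ∀ y ≤ x, P b (σ ++ τ) p y = P b σ p y := fun y hy => by
      simp only [P, List.getD_append _ _ _ _ (hy.trans_lt x2)]
    exact ⟨x, ⟨this x le_rfl ▸ x1, by simp; omega, fun j hj => this j hj.le ▸ x3 j hj⟩, x4⟩
  choose c0 hc using hcc
  classical
  let f : ℕ → Fin r := fun x => if h : ∃ i, a x i ≠ α i then
    ⟨Nat.find h % r, Nat.mod_lt _ (by omega)⟩ else ⟨0, by omega⟩
  refine ⟨f, Finset.univ.sup c0, fun N k hk => ?_⟩
  obtain ⟨h, m, hkm, hh⟩ := h2 k
  refine ⟨pre α (r * h), h, m, by simp [length_pre], hkm, iSup₂_le fun X hX => ?_,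
    le_iSup₂_of_le k hk (le_iInf₂ fun q hq => ?_)⟩
  swap
  · have := hh q hq
    exact_mod_cast (by omega : r * h - m ≤ q.length)
  obtain ⟨b, hb'⟩ := hX.2
  have hb : ∀ x ∈ X, (∀ j < h, a x (r * j + b) = α (r * j + b)) → ∀ i < r * h, a x i = α i := by
    intro x hx H i hi
    by_contra e
    have ex : ∃ i, a x i ≠ α i := ⟨i, e⟩
    have e1 := Nat.find_min' ex e
    have e2 : (f x : ℕ) = Nat.find ex % r := by simp only [f, dif_pos ex]
    rw [hb' x hx] at e2
    have e3 := Nat.div_add_mod (Nat.find ex) r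
    refine Nat.find_spec ex ?_
    rw [← e3, ← e2]
    refine H _ (Nat.div_lt_of_lt_mul (by omega))
  let p := pre (fun j => α (r * j + b)) h
  have e : ∀ k x, x < k → (P b (pre (fun i => decide (i ∈ X)) k) p x = true ↔ x ∈ X ∧
      ∀ j < h, a x (r * j + b) = α (r * j + b)) := fun k x hx => by
    simp only [P, p, getD_pre _ hx, length_pre, Bool.and_eq_true,
      decide_eq_true_eq, List.all_eq_true, List.mem_range, beq_iff_eq, ← eG]
    exact and_congr_right fun _ => forall₂_congr fun j hj => by rw [getD_pre _ hj]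
  obtain ⟨N', hN⟩ := eventually_atTop.1 ((eventually_all_finset (Finset.range h)).2 fun j _ =>
    a2 (r * j + b))
  obtain ⟨x, x1, x2⟩ := hX.1.exists_gt N'
  obtain ⟨y, hy⟩ := Option.isSome_iff_exists.1 (List.find?_isSome.2 ⟨x, List.mem_range.2
    x.lt_succ_self, (e _ x x.lt_succ_self).2 ⟨x1, fun j hj => hN x x2.le j (Finset.mem_range.2 hj)⟩⟩)
  obtain ⟨q, q1, q2⟩ := hc b X p (pre α (r * h)) ⟨x + 1, by
    have := (e _ y (List.mem_range.1 (List.mem_of_find?_eq_some hy))).1 (List.find?_some hy)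
    have hy' : List.find? (P b ((List.range (x + 1)).map fun i => decide (i ∈ X)) p)
        (List.range ((List.range (x + 1)).map fun i => decide (i ∈ X)).length) = some y := by
      simpa [pre] using hy
    beta_reduce
    rw [hy']
    simp only [p, Option.map_some, length_pre, ← eG]
    exact congrArg _ (pre_congr (hb y this.1 this.2))⟩
  have hle : c0 b ≤ Finset.univ.sup c0 := Finset.le_sup (Finset.mem_univ b)
  have hpl : p.length = h := by simp [p, length_pre]
  exact (iInf₂_le q q2).trans (by exact_mod_cast (by omega : q.length ≤ h + Finset.univ.sup c0))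

theorem arith (r k N c c1 h m : ℕ) (x y : ℕ∞) (hr : 1 ≤ r) (hc : 1 ≤ c)
    (hk : k = N + r * c * c1 + c + 1) (hkm : k * (m + k + 1) ≤ h) (hx : x ≤ ((h + c1 : ℕ) : ℕ∞))
    (hy : ((r * h - m : ℕ) : ℕ∞) ≤ y) :
    c ≤ r * h ∧ (r : ℕ∞) * x ≤ ((r * h : ℕ) : ℕ∞) + ((r * c1 : ℕ) : ℕ∞) ∧
      (c : ℕ∞) * ((r * h : ℕ) : ℕ∞) ≤ c * y + ((r * h : ℕ) : ℕ∞) ∧
      ((r * c - 1 : ℕ) : ℕ∞) * x + c < c * y := by
  have e1 : c * m + r * c * c1 + c < h := by
    have a1 : c * m ≤ k * m := Nat.mul_le_mul_right m (by omega)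
    have a2 : k * 1 ≤ k * (k + 1) := Nat.mul_le_mul_left k (by omega)
    have a3 : k * (m + k + 1) = k * m + k * (k + 1) := by ring
    omega
  have e2 : h ≤ r * h := Nat.le_mul_of_pos_left h hr
  have e3 : c * m ≤ r * h := by omega
  have e4 : c ≤ r * h := by omega
  have e5 : m ≤ r * h := by nlinarith
  refine ⟨e4, ?_, ?_, ?_⟩
  · calc (r : ℕ∞) * x ≤ r * ((h + c1 : ℕ) : ℕ∞) := by gcongr
      _ = _ := by push_cast; ring
  · calc (c : ℕ∞) * ((r * h : ℕ) : ℕ∞) ≤ c * ((r * h - m : ℕ) : ℕ∞) + ((r * h : ℕ) : ℕ∞) := by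
          have : c * (r * h) ≤ c * (r * h - m) + r * h := by
            rw [Nat.mul_sub]; omega
          exact_mod_cast this
      _ ≤ _ := by gcongr
  · calc ((r * c - 1 : ℕ) : ℕ∞) * x + c ≤ ((r * c - 1 : ℕ) : ℕ∞) * ((h + c1 : ℕ) : ℕ∞) + c := by
          gcongr
      _ < ((c * (r * h - m) : ℕ) : ℕ∞) := by
          have h1 : (r * c - 1) * (h + c1) + c + h + c * m < r * c * h + h := by
            have : 1 ≤ r * c := Nat.mul_pos hr hc
            obtain ⟨d, hd⟩ := Nat.exists_eq_add_of_le this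
            rw [hd] at e1 ⊢
            have : 1 + d - 1 = d := by omega
            rw [this]
            nlinarith
          have h2 : c * (r * h - m) + c * m = r * c * h := by
            rw [← Nat.mul_add, Nat.sub_add_cancel e5]; ring
          have : (r * c - 1) * (h + c1) + c < c * (r * h - m) := by omega
          exact_mod_cast this
      _ ≤ c * y := by
          push_cast
          gcongr
          exact_mod_cast hy

/-- **A linear gap, and a ratio arbitrarily close to `r` for `r` colours.**  Write `K_f(s)` for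
`C(s | RT^1_r(f)) = max {C^X(s) : X infinite, f constant on X}` and `K_N(s)` for
`C(s | ≥ N) = max {C(s | n) : n ≥ N}`.  For every `r ≥ 1` there is a colouring `f` of the natural
numbers with `r` colours such that for all `N` and all `c ≥ 1` there are arbitrarily long strings
`s` with `K_f(s) ≤ |s| / r + O(1)` and `K_N(s) ≥ (1 - 1 / c) |s|`, and with
`(r - 1 / c) K_f(s) + 1 < K_N(s)`.  The second part restates the case `r = 2` for a set `A` and
`RT^1_2(A)`. -/
theorem result (Φ : List Bool → List Bool → Option (List Bool)) (V : List Bool × ℕ →. List Bool)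
    (hΦ : UnivO Φ) (hV : UnivC V) :
    (∀ r ≥ 1, ∃ f : ℕ → Fin r, ∃ c0 : ℕ, ∀ N c : ℕ, 1 ≤ c → ∃ s : List Bool, c ≤ s.length ∧
      r * (⨆ X ∈ RTr f, CO Φ X s) ≤ s.length + c0 ∧
      c * s.length ≤ c * (⨆ n ≥ N, CC V s n) + s.length ∧
      ((r * c - 1 : ℕ) : ℕ∞) * (⨆ X ∈ RTr f, CO Φ X s) + c < c * ⨆ n ≥ N, CC V s n) ∧
    (∃ A : Set ℕ, ∃ c0 : ℕ, ∀ N c : ℕ, 1 ≤ c → ∃ s : List Bool, c ≤ s.length ∧
      2 * (⨆ X ∈ RT A, CO Φ X s) ≤ s.length + c0 ∧
      c * s.length ≤ c * (⨆ n ≥ N, CC V s n) + s.length ∧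
      ((2 * c - 1 : ℕ) : ℕ∞) * (⨆ X ∈ RT A, CO Φ X s) + c < c * ⨆ n ≥ N, CC V s n) := by
  have key : ∀ r ≥ 1, ∃ f : ℕ → Fin r, ∃ c0 : ℕ, ∀ N c : ℕ, 1 ≤ c → ∃ s : List Bool,
      c ≤ s.length ∧ r * (⨆ X ∈ RTr f, CO Φ X s) ≤ s.length + c0 ∧
      c * s.length ≤ c * (⨆ n ≥ N, CC V s n) + s.length ∧
      ((r * c - 1 : ℕ) : ℕ∞) * (⨆ X ∈ RTr f, CO Φ X s) + c < c * ⨆ n ≥ N, CC V s n := by
    intro r hr
    obtain ⟨f, c1, H⟩ := main Φ V hΦ hV r hr
    refine ⟨f, r * c1, fun N c hc => ?_⟩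
    obtain ⟨s, h, m, h1, h2, h3, h4⟩ := H N (N + r * c * c1 + c + 1) (by omega)
    obtain ⟨g1, g2, g3, g4⟩ := arith r _ N c c1 h m _ _ hr hc rfl h2 h3 h4
    refine ⟨s, by omega, ?_, ?_, g4⟩
    · rw [h1]; exact_mod_cast g2
    · rw [h1]; exact_mod_cast g3
  refine ⟨key, ?_⟩
  obtain ⟨f, c0, H⟩ := key 2 (by omega)
  refine ⟨{x | f x = 0}, c0, fun N c hc => ?_⟩
  obtain ⟨s, h⟩ := H N c hc
  have : RT {x | f x = 0} = RTr f := by
    ext X
    refine and_congr_right fun _ => ⟨?_, ?_⟩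
    · rintro (h | h)
      · exact ⟨0, fun x hx => h hx⟩
      · refine ⟨1, fun x hx => ?_⟩
        have : f x ≠ 0 := h hx
        omega
    · rintro ⟨i, h⟩
      by_cases hi : i = 0
      · exact Or.inl fun x hx => hi ▸ h x hx
      · exact Or.inr fun x hx h0 => hi ((h x hx).symm.trans h0)
  rw [this]
  exact ⟨s, by exact_mod_cast h⟩

end Pool.Agent.Results.MP_7b562e_lc.LinearGap
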